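import Mathlib

/-!
# The Lichnerowicz curvature conditions `(L_k)` are not monotone in `k`
-/

set_option autoImplicit false

open Filter Topology
open scoped ContDiff

namespace Pool.Agent.Results.MP_9e0eae_gt.LThreeNotLTwo

section Defs

variable {n : ℕ}

/-- Partial derivative with respect to the `i`-th coordinate. -/
noncomputable def pd (i : Fin n) (f : (Fin n → ℝ) → ℝ) (x : Fin n → ℝ) : ℝ :=
  fderiv ℝ f x (Pi.single i 1)

/-- The Christoffel symbol `Γ^l_{ij}` of the metric `g`. -/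
noncomputable def Gam (g : (Fin n → ℝ) → Matrix (Fin n) (Fin n) ℝ) (l i j : Fin n)
    (x : Fin n → ℝ) : ℝ :=
  1 / 2 * ∑ m, (g x)⁻¹ l m * (pd i (fun y => g y j m) x + pd j (fun y => g y i m) x -
    pd m (fun y => g y i j) x)

/-- The curvature tensor: `R(∂_i, ∂_j) ∂_k = ∑ l, Rm g i j k l • ∂_l`. -/
noncomputable def Rm (g : (Fin n → ℝ) → Matrix (Fin n) (Fin n) ℝ) (i j k l : Fin n)
    (x : Fin n → ℝ) : ℝ :=
  pd i (Gam g l j k) x - pd j (Gam g l i k) x +
    ∑ m, (Gam g l i m x * Gam g m j k x - Gam g l j m x * Gam g m i k x)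

/-- The action of `R(∂_i, ∂_j)` on `(0,k)`-tensors as a derivation. -/
noncomputable def der (g : (Fin n → ℝ) → Matrix (Fin n) (Fin n) ℝ) (x : Fin n → ℝ)
    (i j : Fin n) {k : ℕ} (T : (Fin k → Fin n) → ℝ) (p : Fin k → Fin n) : ℝ :=
  -∑ s, ∑ m, Rm g i j (p s) m x * T (Function.update p s m)

/-- The curvature term of the Lichnerowicz Laplacian. -/
noncomputable def RicL (g : (Fin n → ℝ) → Matrix (Fin n) (Fin n) ℝ) (x : Fin n → ℝ) {k : ℕ}
    (T : (Fin k → Fin n) → ℝ) (p : Fin k → Fin n) : ℝ :=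
  ∑ s, ∑ a, ∑ b, (g x)⁻¹ a b * der g x a (p s) T (Function.update p s b)

/-- The inner product of `(0,k)`-tensors induced by the metric. -/
noncomputable def ip (g : (Fin n → ℝ) → Matrix (Fin n) (Fin n) ℝ) (x : Fin n → ℝ) {k : ℕ}
    (S T : (Fin k → Fin n) → ℝ) : ℝ :=
  ∑ p, ∑ q, (∏ s, (g x)⁻¹ (p s) (q s)) * (S p * T q)

/-- Condition `(L_k)` for the Riemannian manifold `(U, g)`. -/
def CondL (g : (Fin n → ℝ) → Matrix (Fin n) (Fin n) ℝ) (U : Set (Fin n → ℝ)) (k : ℕ) : Prop :=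
  ∀ x ∈ U, ∀ T : (Fin k → Fin n) → ℝ, (∀ (σ : Equiv.Perm (Fin k)) (p : Fin k → Fin n),
    T (p ∘ σ) = T p) → 0 ≤ ip g x (RicL g x T) T

end Defs

section Alg

variable {n k : ℕ}

/-- The derivation of `(0,k)`-tensors given by `e_a ∧ e_b`. -/
def LL (a b : Fin n) (T : (Fin k → Fin n) → ℝ) (p : Fin k → Fin n) : ℝ :=
  ∑ s, ((if p s = a then T (Function.update p s b) else 0) -
    (if p s = b then T (Function.update p s a) else 0))

theorem sum_upd (a b : Fin n) (s : Fin k) (F : (Fin k → Fin n) → (Fin k → Fin n) → ℝ) :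
    ∑ p : Fin k → Fin n, (if p s = a then F p (Function.update p s b) else 0) =
      ∑ p : Fin k → Fin n, (if p s = b then F (Function.update p s a) p else 0) := by
  rw [← Finset.sum_filter, ← Finset.sum_filter]
  refine Finset.sum_bij' (fun p _ => Function.update p s b) (fun p _ => Function.update p s a)
    ?_ ?_ ?_ ?_ ?_
  · intro p hp
    simp
  · intro p hp
    simp
  · intro p hp
    rw [Finset.mem_filter] at hp
    simp [← hp.2]
  · intro p hp
    rw [Finset.mem_filter] at hp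
    simp [← hp.2]
  · intro p hp
    rw [Finset.mem_filter] at hp
    simp [← hp.2]

theorem LL_skew (a b : Fin n) (S T : (Fin k → Fin n) → ℝ) :
    ∑ p, LL a b S p * T p = -∑ p, S p * LL a b T p := by
  unfold LL
  simp only [Finset.sum_mul, Finset.mul_sum]
  rw [Finset.sum_comm, Finset.sum_comm (s := (Finset.univ : Finset (Fin k → Fin n))),
    ← Finset.sum_neg_distrib]
  apply Finset.sum_congr rfl
  intro s _
  have h1 := sum_upd a b s (fun p q => S q * T p)
  have h2 := sum_upd b a s (fun p q => S q * T p)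
  simp only [sub_mul, mul_sub, ite_mul, mul_ite, zero_mul, mul_zero, Finset.sum_sub_distrib]
  rw [h1, h2]
  ring

theorem LL_anti (a b : Fin n) (T : (Fin k → Fin n) → ℝ) (p : Fin k → Fin n) :
    LL a b T p = -LL b a T p := by
  unfold LL
  rw [← Finset.sum_neg_distrib]
  apply Finset.sum_congr rfl
  intro s _
  ring

/-- The algebraic identity behind the Weitzenboeck term. -/
theorem ric_eq (K : Fin n → Fin n → ℝ) (hK : ∀ a b, K a b = K b a) (T : (Fin k → Fin n) → ℝ)
    (p : Fin k → Fin n) :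
    ∑ s, ∑ a, K a (p s) * LL a (p s) T (Function.update p s a) =
      -(1 / 2) * ∑ a, ∑ b, K a b * LL a b (LL a b T) p := by
  have h1 : ∀ a b, K a b * LL a b (LL a b T) p =
      ∑ s, ((if p s = a then K a b * LL a b T (Function.update p s b) else 0) -
        (if p s = b then K a b * LL a b T (Function.update p s a) else 0)) := by
    intro a b
    conv_lhs => unfold LL
    rw [Finset.mul_sum]
    apply Finset.sum_congr rfl
    intro s _
    simp only [mul_sub, mul_ite, mul_zero]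
    rfl
  simp only [h1]
  have h2 : ∑ a, ∑ b, ∑ s, ((if p s = a then K a b * LL a b T (Function.update p s b) else 0) -
      (if p s = b then K a b * LL a b T (Function.update p s a) else 0)) =
      ∑ s, ∑ a, ∑ b, ((if p s = a then K a b * LL a b T (Function.update p s b) else 0) -
      (if p s = b then K a b * LL a b T (Function.update p s a) else 0)) := by
    refine (Finset.sum_congr rfl (fun a _ => Finset.sum_comm)).trans ?_
    exact Finset.sum_comm
  rw [h2, Finset.mul_sum]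
  apply Finset.sum_congr rfl
  intro s _
  simp only [Finset.sum_sub_distrib]
  have h3 : ∑ a, ∑ b, (if p s = a then K a b * LL a b T (Function.update p s b) else 0) =
      -∑ b, K b (p s) * LL b (p s) T (Function.update p s b) := by
    rw [Finset.sum_comm, ← Finset.sum_neg_distrib]
    apply Finset.sum_congr rfl
    intro b _
    rw [Finset.sum_ite_eq Finset.univ (p s)]
    simp only [Finset.mem_univ, if_true]
    rw [LL_anti (p s) b, hK (p s) b]
    ring
  have h4 : ∑ a, ∑ b, (if p s = b then K a b * LL a b T (Function.update p s a) else 0) =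
      ∑ b, K b (p s) * LL b (p s) T (Function.update p s b) := by
    apply Finset.sum_congr rfl
    intro a _
    rw [Finset.sum_ite_eq Finset.univ (p s)]
    simp only [Finset.mem_univ, if_true]
  rw [h3, h4]
  ring


theorem LL_bound (a b : Fin n) (hab : a ≠ b) (T : (Fin k → Fin n) → ℝ) :
    ∑ p, LL a b T p ^ 2 ≤ (k : ℝ) ^ 2 * ∑ p, T p ^ 2 := by
  have h1 : ∀ p : Fin k → Fin n, LL a b T p ^ 2 ≤
      (k : ℝ) * ∑ s, ((if p s = a then T (Function.update p s b) ^ 2 else 0) +
        (if p s = b then T (Function.update p s a) ^ 2 else 0)) := by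
    intro p
    unfold LL
    refine (sq_sum_le_card_mul_sum_sq).trans (le_of_eq ?_)
    rw [Finset.card_univ, Fintype.card_fin]
    congr 1
    apply Finset.sum_congr rfl
    intro s _
    by_cases h : p s = a
    · have h' : ¬ p s = b := fun h' => hab (h.symm.trans h')
      simp [h, hab]
    · by_cases h' : p s = b <;> simp [h, h', Ne.symm hab]
  refine (Finset.sum_le_sum (fun p _ => h1 p)).trans ?_
  rw [← Finset.mul_sum, Finset.sum_comm]
  have h2 : ∀ s : Fin k, ∑ p : Fin k → Fin n,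
      ((if p s = a then T (Function.update p s b) ^ 2 else 0) +
        (if p s = b then T (Function.update p s a) ^ 2 else 0)) ≤ ∑ p, T p ^ 2 := by
    intro s
    rw [Finset.sum_add_distrib, sum_upd a b s (fun _ q => T q ^ 2),
      sum_upd b a s (fun _ q => T q ^ 2), ← Finset.sum_add_distrib]
    apply Finset.sum_le_sum
    intro p _
    by_cases h : p s = a
    · have h' : ¬ p s = b := fun h' => hab (h.symm.trans h')
      simp [h, hab]
    · by_cases h' : p s = b
      · simp [h', Ne.symm hab]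
      · simp only [h, h', if_false, add_zero]
        positivity
  calc (k : ℝ) * ∑ s : Fin k, ∑ p : Fin k → Fin n,
      ((if p s = a then T (Function.update p s b) ^ 2 else 0) +
        (if p s = b then T (Function.update p s a) ^ 2 else 0))
      ≤ (k : ℝ) * ∑ _s : Fin k, ∑ p, T p ^ 2 :=
        mul_le_mul_of_nonneg_left (Finset.sum_le_sum (fun s _ => h2 s)) (Nat.cast_nonneg k)
    _ = (k : ℝ) ^ 2 * ∑ p, T p ^ 2 := by
        rw [Finset.sum_const, Finset.card_univ, Fintype.card_fin, nsmul_eq_mul]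
        ring


/-- local derivation -/
def A3 (a b : Fin 4) (t : Fin 4 → Fin 4 → Fin 4 → ℝ) (i j l : Fin 4) : ℝ :=
  ((if i = a then t b j l else 0) - (if i = b then t a j l else 0)) +
  ((if j = a then t i b l else 0) - (if j = b then t i a l else 0)) +
  ((if l = a then t i j b else 0) - (if l = b then t i j a else 0))

theorem low (t : Fin 4 → Fin 4 → Fin 4 → ℝ) :
    ∑ i, ∑ j, ∑ l, t i j l ^ 2 ≤ ∑ i, ∑ j, ∑ l, A3 0 1 t i j l ^ 2 +
      ∑ i, ∑ j, ∑ l, A3 2 3 t i j l ^ 2 := by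
  have h01 : (0 : Fin 4) ≠ 1 := by decide
  have h23 : (2 : Fin 4) ≠ 3 := by decide
  have h : ∑ i, ∑ j, ∑ l, A3 0 1 t i j l ^ 2 + ∑ i, ∑ j, ∑ l, A3 2 3 t i j l ^ 2 =
    ∑ i, ∑ j, ∑ l, t i j l ^ 2 + 2 * (t 0 0 0 - t 0 1 1 - t 1 0 1 - t 1 1 0) ^ 2 +
      2 * (t 1 1 1 - t 1 0 0 - t 0 1 0 - t 0 0 1) ^ 2 +
      2 * (t 2 2 2 - t 2 3 3 - t 3 2 3 - t 3 3 2) ^ 2 +
      2 * (t 3 3 3 - t 3 2 2 - t 2 3 2 - t 2 2 3) ^ 2 + 
      (∑ i ∈ {2, 3}, ∑ j ∈ {0, 1}, ∑ l ∈ {0, 1}, (A3 0 1 t i j l ^ 2 + A3 0 1 t j i l ^ 2 + A3 0 1 t j l i ^ 2)) + 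
      (∑ i ∈ {0, 1}, ∑ j ∈ {2, 3}, ∑ l ∈ {2, 3}, (A3 2 3 t i j l ^ 2 + A3 2 3 t j i l ^ 2 + A3 2 3 t j l i ^ 2)) := by
    simp only [Fin.sum_univ_four, A3, Fin.isValue, Finset.sum_pair h01, Finset.sum_pair h23]
    simp (decide := true) only [if_true, if_false]
    ring
  rw [h]
  have h1 : 0 ≤ (∑ i ∈ ({2, 3} : Finset (Fin 4)), ∑ j ∈ ({0, 1} : Finset (Fin 4)), ∑ l ∈ ({0, 1} : Finset (Fin 4)), (A3 0 1 t i j l ^ 2 + A3 0 1 t j i l ^ 2 + A3 0 1 t j l i ^ 2)) :=
    Finset.sum_nonneg fun i _ => Finset.sum_nonneg fun j _ => Finset.sum_nonneg fun l _ => by positivity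
  have h2 : 0 ≤ (∑ i ∈ ({0, 1} : Finset (Fin 4)), ∑ j ∈ ({2, 3} : Finset (Fin 4)), ∑ l ∈ ({2, 3} : Finset (Fin 4)), (A3 2 3 t i j l ^ 2 + A3 2 3 t j i l ^ 2 + A3 2 3 t j l i ^ 2)) :=
    Finset.sum_nonneg fun i _ => Finset.sum_nonneg fun j _ => Finset.sum_nonneg fun l _ => by positivity
  have s1 := sq_nonneg (t 0 0 0 - t 0 1 1 - t 1 0 1 - t 1 1 0)
  have s2 := sq_nonneg (t 1 1 1 - t 1 0 0 - t 0 1 0 - t 0 0 1)
  have s3 := sq_nonneg (t 2 2 2 - t 2 3 3 - t 3 2 3 - t 3 3 2)
  have s4 := sq_nonneg (t 3 3 3 - t 3 2 2 - t 2 3 2 - t 2 2 3)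
  linarith

theorem sum3 (F : (Fin 3 → Fin 4) → ℝ) : ∑ p, F p = ∑ i, ∑ j, ∑ l, F ![i, j, l] := by
  let e : (Fin 4 × Fin 4 × Fin 4) ≃ (Fin 3 → Fin 4) :=
    { toFun := fun q => ![q.1, q.2.1, q.2.2]
      invFun := fun p => (p 0, p 1, p 2)
      left_inv := fun q => rfl
      right_inv := fun p => by ext i; fin_cases i <;> rfl }
  rw [← e.sum_comp, Fintype.sum_prod_type]
  apply Finset.sum_congr rfl
  intro i _
  rw [Fintype.sum_prod_type]
  rfl

theorem LL3 (a b : Fin 4) (T : (Fin 3 → Fin 4) → ℝ) (i j l : Fin 4) :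
    LL a b T ![i, j, l] = A3 a b (fun i j l => T ![i, j, l]) i j l := by
  have h0 : ∀ c, Function.update ![i, j, l] 0 c = ![c, j, l] := by
    intro c; ext x; fin_cases x <;> simp [Function.update]
  have h1 : ∀ c, Function.update ![i, j, l] 1 c = ![i, c, l] := by
    intro c; ext x; fin_cases x <;> simp [Function.update]
  have h2 : ∀ c, Function.update ![i, j, l] 2 c = ![i, j, c] := by
    intro c; ext x; fin_cases x <;> simp [Function.update]
  unfold LL A3
  rw [Fin.sum_univ_three, h0, h0, h1, h1, h2, h2]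
  rfl

theorem low' (T : (Fin 3 → Fin 4) → ℝ) :
    ∑ p, T p ^ 2 ≤ ∑ p, LL 0 1 T p ^ 2 + ∑ p, LL 2 3 T p ^ 2 := by
  rw [sum3, sum3, sum3]
  simp only [LL3]
  exact low _

/-- The sectional curvatures at the origin. -/
def Kc (i j : Fin 4) : ℝ := if i = j then 0 else if i.val / 2 = j.val / 2 then 100 else -1

theorem Kc_symm (i j : Fin 4) : Kc i j = Kc j i := by
  unfold Kc
  by_cases h : i = j
  · simp [h]
  · simp only [h, Ne.symm h, if_false, eq_comm]

theorem Q_pos (T : (Fin 3 → Fin 4) → ℝ) :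
    64 * ∑ p, T p ^ 2 ≤ 1 / 2 * ∑ a, ∑ b, Kc a b * ∑ p, LL a b T p ^ 2 := by
  have hs : ∀ a b, ∑ p, LL a b T p ^ 2 = ∑ p, LL b a T p ^ 2 := by
    intro a b
    apply Finset.sum_congr rfl
    intro p _
    rw [LL_anti a b, neg_sq]
  have hb : ∀ a b, a ≠ b → ∑ p, LL a b T p ^ 2 ≤ 9 * ∑ p, T p ^ 2 := by
    intro a b hab
    have := LL_bound a b hab T
    norm_num at this
    exact this
  have hl := low' T
  have e : 1 / 2 * ∑ a, ∑ b, Kc a b * ∑ p, LL a b T p ^ 2 =
      100 * ∑ p, LL 0 1 T p ^ 2 + 100 * ∑ p, LL 2 3 T p ^ 2 - ∑ p, LL 0 2 T p ^ 2 -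
        ∑ p, LL 0 3 T p ^ 2 - ∑ p, LL 1 2 T p ^ 2 - ∑ p, LL 1 3 T p ^ 2 := by
    simp only [Fin.sum_univ_four (f := fun a => ∑ b, Kc a b * ∑ p, LL a b T p ^ 2)]
    simp only [Fin.sum_univ_four (f := fun b => Kc _ b * ∑ p, LL _ b T p ^ 2)]
    rw [hs 1 0, hs 2 0, hs 3 0, hs 2 1, hs 3 1, hs 3 2]
    have k00 : Kc 0 0 = 0 := by simp [Kc]
    have k11 : Kc 1 1 = 0 := by simp [Kc]
    have k22 : Kc 2 2 = 0 := by simp [Kc]
    have k33 : Kc 3 3 = 0 := by simp [Kc]
    have k01 : Kc 0 1 = 100 := by simp [Kc]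
    have k10 : Kc 1 0 = 100 := by simp [Kc]
    have k23 : Kc 2 3 = 100 := by simp (decide := true) [Kc]
    have k32 : Kc 3 2 = 100 := by simp (decide := true) [Kc]
    have k02 : Kc 0 2 = -1 := by simp (decide := true) [Kc]
    have k20 : Kc 2 0 = -1 := by simp (decide := true) [Kc]
    have k03 : Kc 0 3 = -1 := by simp (decide := true) [Kc]
    have k30 : Kc 3 0 = -1 := by simp (decide := true) [Kc]
    have k12 : Kc 1 2 = -1 := by simp (decide := true) [Kc]
    have k21 : Kc 2 1 = -1 := by simp (decide := true) [Kc]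
    have k13 : Kc 1 3 = -1 := by simp (decide := true) [Kc]
    have k31 : Kc 3 1 = -1 := by simp (decide := true) [Kc]
    rw [k00, k11, k22, k33, k01, k10, k23, k32, k02, k20, k03, k30, k12, k21, k13, k31]
    ring
  rw [e]
  have b1 := hb 0 2 (by decide)
  have b2 := hb 0 3 (by decide)
  have b3 := hb 1 2 (by decide)
  have b4 := hb 1 3 (by decide)
  linarith

end Alg

section Geo

/-- The diagonal entries of the metric. -/
noncomputable def EE (y : Fin 4 → ℝ) (i : Fin 4) : ℝ := 1 - 1 / 2 * ∑ j, Kc i j * y j ^ 2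

/-- The metric. -/
noncomputable def gg (y : Fin 4 → ℝ) : Matrix (Fin 4) (Fin 4) ℝ := Matrix.diagonal (EE y)

/-- The domain. -/
def U0 : Set (Fin 4 → ℝ) := {y | ∀ i, 0 < EE y i}

theorem EE_contDiff (i : Fin 4) : ContDiff ℝ ∞ (fun y => EE y i) := by
  unfold EE
  fun_prop

theorem gg_contDiff (i j : Fin 4) : ContDiff ℝ ∞ (fun y => gg y i j) := by
  unfold gg
  simp only [Matrix.diagonal_apply]
  by_cases h : i = j
  · simp only [h, if_true]
    exact EE_contDiff j
  · simp only [h, if_false]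
    exact contDiff_const

theorem U0_open : IsOpen U0 := by
  have : U0 = ⋂ i, {y | 0 < EE y i} := by
    ext y; simp [U0]
  rw [this]
  exact isOpen_iInter_of_finite fun i => isOpen_lt continuous_const (EE_contDiff i).continuous

theorem EE_zero (i : Fin 4) : EE 0 i = 1 := by simp [EE]

theorem zero_mem : (0 : Fin 4 → ℝ) ∈ U0 := by
  intro i
  rw [EE_zero]
  norm_num

theorem pd_EE (i j : Fin 4) (x : Fin 4 → ℝ) :
    pd i (fun y => EE y j) x = -(Kc j i * x i) := by
  have h : HasFDerivAt (fun y : Fin 4 → ℝ => EE y j)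
      (-(1 / 2 : ℝ) • ∑ l, Kc j l • ((2 * x l) •
        (ContinuousLinearMap.proj l : (Fin 4 → ℝ) →L[ℝ] ℝ))) x := by
    unfold EE
    have h1 : ∀ l ∈ (Finset.univ : Finset (Fin 4)), HasFDerivAt (fun y : Fin 4 → ℝ => Kc j l * y l ^ 2)
        (Kc j l • ((2 * x l) • (ContinuousLinearMap.proj l : (Fin 4 → ℝ) →L[ℝ] ℝ))) x := by
      intro l _
      have h2 : HasFDerivAt (fun y : Fin 4 → ℝ => y l)
        (ContinuousLinearMap.proj l : (Fin 4 → ℝ) →L[ℝ] ℝ) x := hasFDerivAt_apply l x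
      have h3 := (h2.pow 2).const_mul (Kc j l)
      simpa using h3
    have h4 := ((HasFDerivAt.fun_sum h1).const_mul (1 / 2 : ℝ)).const_sub 1
    rw [← neg_smul] at h4
    exact h4
  unfold pd
  rw [h.fderiv]
  simp only [smul_apply, sum_apply, ContinuousLinearMap.proj_apply, smul_eq_mul]
  rw [Finset.sum_eq_single i]
  · simp
    ring
  · intro b _ hb
    simp [hb]
  · simp

theorem pd_const (i : Fin 4) (c : ℝ) (x : Fin 4 → ℝ) : pd i (fun _ => c) x = 0 := by
  unfold pd
  simp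

theorem pd_gg (i j m : Fin 4) (x : Fin 4 → ℝ) :
    pd i (fun y => gg y j m) x = if j = m then -(Kc j i * x i) else 0 := by
  unfold gg
  simp only [Matrix.diagonal_apply]
  by_cases h : j = m
  · simp only [h, if_true]
    exact pd_EE i m x
  · simp only [h, if_false]
    exact pd_const i 0 x

theorem inv_gg {y : Fin 4 → ℝ} (hy : y ∈ U0) (l m : Fin 4) :
    (gg y)⁻¹ l m = if l = m then (EE y l)⁻¹ else 0 := by
  have h : (gg y)⁻¹ = Matrix.diagonal (fun i => (EE y i)⁻¹) := by
    apply Matrix.inv_eq_right_inv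
    unfold gg
    rw [Matrix.diagonal_mul_diagonal]
    have : (fun i => EE y i * (EE y i)⁻¹) = fun _ => 1 := by
      funext i
      exact mul_inv_cancel₀ (hy i).ne'
    rw [this]
    exact Matrix.diagonal_one
  rw [h, Matrix.diagonal_apply]

/-- The explicit Christoffel symbols. -/
noncomputable def FF (l i j : Fin 4) (y : Fin 4 → ℝ) : ℝ :=
  1 / 2 * (EE y l)⁻¹ * ((if j = l then -Kc j i else 0) * y i +
    (if i = l then -Kc i j else 0) * y j + (if i = j then Kc i l else 0) * y l)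

theorem Gam_eq {y : Fin 4 → ℝ} (hy : y ∈ U0) (l i j : Fin 4) : Gam gg l i j y = FF l i j y := by
  unfold Gam FF
  simp only [inv_gg hy, pd_gg]
  rw [Finset.sum_eq_single l]
  · simp only [if_true]
    split_ifs <;> ring
  · intro b _ hb
    rw [if_neg (Ne.symm hb)]
    ring
  · simp

theorem FF_contDiffOn (l i j : Fin 4) : ContDiffOn ℝ ∞ (FF l i j) U0 := by
  unfold FF
  have h1 : ContDiffOn ℝ ∞ (fun y => (EE y l)⁻¹) U0 :=
    (EE_contDiff l).contDiffOn.inv (fun y hy => (hy l).ne')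
  have h2 : ContDiff ℝ ∞ (fun y : Fin 4 → ℝ => ((if j = l then -Kc j i else 0) * y i +
    (if i = l then -Kc i j else 0) * y j + (if i = j then Kc i l else 0) * y l)) := by
    fun_prop
  exact (contDiffOn_const.mul h1).mul h2.contDiffOn

theorem pd_Gam {x : Fin 4 → ℝ} (hx : x ∈ U0) (m l i j : Fin 4) :
    pd m (Gam gg l i j) x = pd m (FF l i j) x := by
  unfold pd
  have : Gam gg l i j =ᶠ[𝓝 x] FF l i j := by
    filter_upwards [U0_open.mem_nhds hx] with y hy
    exact Gam_eq hy l i j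
  rw [this.fderiv_eq]

theorem Rm_cont (i j k l : Fin 4) : ContinuousOn (Rm gg i j k l) U0 := by
  have h1 : ∀ m l i j, ContinuousOn (pd m (Gam gg l i j)) U0 := by
    intro m l i j
    have : ContinuousOn (pd m (FF l i j)) U0 := by
      unfold pd
      exact ((FF_contDiffOn l i j).continuousOn_fderiv_of_isOpen U0_open (by simp)).clm_apply
        continuousOn_const
    exact this.congr fun x hx => pd_Gam hx m l i j
  have h2 : ∀ l i j, ContinuousOn (Gam gg l i j) U0 := by
    intro l i j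
    exact (FF_contDiffOn l i j).continuousOn.congr fun x hx => Gam_eq hx l i j
  unfold Rm
  refine ((h1 _ _ _ _).sub (h1 _ _ _ _)).add ?_
  exact continuousOn_finsetSum _ fun m _ => ((h2 _ _ _).mul (h2 _ _ _)).sub
    ((h2 _ _ _).mul (h2 _ _ _))

theorem pd_FF_zero (m l i j : Fin 4) : pd m (FF l i j) 0 =
    1 / 2 * ((if j = l then -Kc j i else 0) * (if m = i then 1 else 0) +
      (if i = l then -Kc i j else 0) * (if m = j then 1 else 0) +
        (if i = j then Kc i l else 0) * (if m = l then 1 else 0)) := by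
  unfold pd FF
  set c1 : ℝ := if j = l then -Kc j i else 0
  set c2 : ℝ := if i = l then -Kc i j else 0
  set c3 : ℝ := if i = j then Kc i l else 0
  have hu : DifferentiableAt ℝ (fun y : Fin 4 → ℝ => 1 / 2 * (EE y l)⁻¹) 0 := by
    have h1 : DifferentiableAt ℝ (fun y => EE y l) 0 :=
      (EE_contDiff l).differentiable (by simp) 0
    exact (h1.inv (by rw [EE_zero]; norm_num)).const_mul _
  have hv : HasFDerivAt (fun y : Fin 4 → ℝ => c1 * y i + c2 * y j + c3 * y l)
      (c1 • (ContinuousLinearMap.proj i : (Fin 4 → ℝ) →L[ℝ] ℝ) +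
        c2 • (ContinuousLinearMap.proj j : (Fin 4 → ℝ) →L[ℝ] ℝ) +
        c3 • (ContinuousLinearMap.proj l : (Fin 4 → ℝ) →L[ℝ] ℝ)) 0 :=
    (((hasFDerivAt_apply i (0 : Fin 4 → ℝ)).const_mul c1).add
      ((hasFDerivAt_apply j (0 : Fin 4 → ℝ)).const_mul c2)).add
      ((hasFDerivAt_apply l (0 : Fin 4 → ℝ)).const_mul c3)
  have h := hu.hasFDerivAt.mul hv
  have h' := h.fderiv
  change fderiv ℝ (fun y : Fin 4 → ℝ => 1 / 2 * (EE y l)⁻¹ * (c1 * y i + c2 * y j + c3 * y l)) 0 =
    _ at h'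
  rw [h']
  simp only [add_apply, smul_apply, ContinuousLinearMap.proj_apply, smul_eq_mul, EE_zero, Pi.zero_apply, mul_zero, add_zero,
    zero_mul, inv_one, mul_one, Pi.single_apply]
  simp only [eq_comm (a := m)]
  try ring

theorem Gam_zero (l i j : Fin 4) : Gam gg l i j 0 = 0 := by
  rw [Gam_eq zero_mem]
  simp [FF]

theorem Rm_zero (i j k l : Fin 4) : Rm gg i j k l 0 =
    Kc i j * ((if k = j then 1 else 0) * (if i = l then 1 else 0) -
      (if k = i then 1 else 0) * (if j = l then 1 else 0)) := by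
  unfold Rm
  simp only [Gam_zero, mul_zero, sub_zero, Finset.sum_const_zero, add_zero]
  rw [pd_Gam zero_mem, pd_Gam zero_mem, pd_FF_zero, pd_FF_zero]
  fin_cases i <;> fin_cases j <;> fin_cases k <;> fin_cases l <;>
    simp (decide := true) [Kc] <;> norm_num

theorem der_zero {k : ℕ} (a b : Fin 4) (T : (Fin k → Fin 4) → ℝ) (p : Fin k → Fin 4) :
    der gg 0 a b T p = Kc a b * LL a b T p := by
  unfold der LL
  simp only [Rm_zero]
  rw [← Finset.sum_neg_distrib, Finset.mul_sum]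
  apply Finset.sum_congr rfl
  intro s _
  have h1 : ∀ m, Kc a b * ((if p s = b then 1 else 0) * (if a = m then 1 else 0) -
      (if p s = a then 1 else 0) * (if b = m then 1 else 0)) * T (Function.update p s m) =
      (if a = m then Kc a b * (if p s = b then 1 else 0) * T (Function.update p s m) else 0) -
      (if b = m then Kc a b * (if p s = a then 1 else 0) * T (Function.update p s m) else 0) := by
    intro m
    split_ifs <;> ring
  simp only [h1, Finset.sum_sub_distrib, Finset.sum_ite_eq, Finset.mem_univ, if_true]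
  split_ifs <;> ring

theorem inv_zero (a b : Fin 4) : (gg 0)⁻¹ a b = if a = b then 1 else 0 := by
  rw [inv_gg zero_mem]
  simp [EE_zero]

theorem RicL_zero {k : ℕ} (T : (Fin k → Fin 4) → ℝ) (p : Fin k → Fin 4) :
    RicL gg 0 T p = -(1 / 2) * ∑ a, ∑ b, Kc a b * LL a b (LL a b T) p := by
  rw [← ric_eq Kc Kc_symm]
  unfold RicL
  apply Finset.sum_congr rfl
  intro s _
  apply Finset.sum_congr rfl
  intro a _
  simp only [inv_zero, der_zero, ite_mul, one_mul, zero_mul, Finset.sum_ite_eq, Finset.mem_univ,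
    if_true]

theorem ip_zero {k : ℕ} (S T : (Fin k → Fin 4) → ℝ) : ip gg 0 S T = ∑ p, S p * T p := by
  unfold ip
  apply Finset.sum_congr rfl
  intro p _
  rw [Finset.sum_eq_single p]
  · simp [inv_zero]
  · intro q _ hq
    obtain ⟨s, hs⟩ := Function.ne_iff.1 hq
    rw [Finset.prod_eq_zero (Finset.mem_univ s), zero_mul]
    rw [inv_zero, if_neg (Ne.symm hs)]
  · simp

theorem Q_zero {k : ℕ} (T : (Fin k → Fin 4) → ℝ) :
    ip gg 0 (RicL gg 0 T) T = 1 / 2 * ∑ a, ∑ b, Kc a b * ∑ p, LL a b T p ^ 2 := by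
  rw [ip_zero]
  simp only [RicL_zero]
  have h1 : ∀ a b, ∑ p, LL a b (LL a b T) p * T p = -∑ p, LL a b T p ^ 2 := by
    intro a b
    rw [LL_skew]
    congr 1
    apply Finset.sum_congr rfl
    intro p _
    ring
  calc ∑ p, -(1 / 2) * (∑ a, ∑ b, Kc a b * LL a b (LL a b T) p) * T p
      = -(1 / 2) * ∑ a, ∑ b, Kc a b * ∑ p, LL a b (LL a b T) p * T p := by
        simp only [Finset.mul_sum, Finset.sum_mul]
        rw [Finset.sum_comm]
        apply Finset.sum_congr rfl
        intro a _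
        rw [Finset.sum_comm]
        apply Finset.sum_congr rfl
        intro b _
        apply Finset.sum_congr rfl
        intro p _
        ring
    _ = _ := by
        simp only [h1, mul_neg, Finset.sum_neg_distrib]
        ring

/-- The quadratic form of the curvature term. -/
noncomputable def QQ (z : (Fin 4 → ℝ) × ((Fin 3 → Fin 4) → ℝ)) : ℝ :=
  ip gg z.1 (RicL gg z.1 z.2) z.2

theorem QQ_cont : ContinuousOn QQ (U0 ×ˢ Set.univ) := by
  have hI : ∀ a b : Fin 4, ContinuousOn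
      (fun z : (Fin 4 → ℝ) × ((Fin 3 → Fin 4) → ℝ) => (gg z.1)⁻¹ a b) (U0 ×ˢ Set.univ) := by
    intro a b
    have h1 : ContinuousOn (fun y => (gg y)⁻¹ a b) U0 := by
      have h2 : ContinuousOn (fun y => if a = b then (EE y a)⁻¹ else 0) U0 := by
        by_cases h : a = b
        · simp only [h, if_true]
          exact (EE_contDiff b).continuous.continuousOn.inv₀ (fun y hy => (hy b).ne')
        · simp only [h, if_false]
          exact continuousOn_const
      exact h2.congr fun y hy => inv_gg hy a b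
    exact h1.comp continuousOn_fst (fun z hz => hz.1)
  have hR : ∀ i j k l : Fin 4, ContinuousOn
      (fun z : (Fin 4 → ℝ) × ((Fin 3 → Fin 4) → ℝ) => Rm gg i j k l z.1) (U0 ×ˢ Set.univ) :=
    fun i j k l => (Rm_cont i j k l).comp continuousOn_fst (fun z hz => hz.1)
  have hT : ∀ p : Fin 3 → Fin 4, ContinuousOn
      (fun z : (Fin 4 → ℝ) × ((Fin 3 → Fin 4) → ℝ) => z.2 p) (U0 ×ˢ Set.univ) :=
    fun p => ((continuous_apply p).comp continuous_snd).continuousOn
  unfold QQ ip RicL der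
  refine continuousOn_finsetSum _ fun p _ => continuousOn_finsetSum _ fun q _ => ?_
  refine (continuousOn_finsetProd _ fun s _ => hI _ _).mul (ContinuousOn.mul ?_ (hT q))
  refine continuousOn_finsetSum _ fun s _ => continuousOn_finsetSum _ fun a _ =>
    continuousOn_finsetSum _ fun b _ => (hI _ _).mul (ContinuousOn.neg ?_)
  exact continuousOn_finsetSum _ fun s' _ => continuousOn_finsetSum _ fun m _ =>
    (hR _ _ _ _).mul (hT _)

theorem QQ_smul (x : Fin 4 → ℝ) (c : ℝ) (T : (Fin 3 → Fin 4) → ℝ) :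
    QQ (x, c • T) = c ^ 2 * QQ (x, T) := by
  unfold QQ ip RicL der
  simp only [Pi.smul_apply, smul_eq_mul]
  rw [Finset.mul_sum]
  apply Finset.sum_congr rfl
  intro p _
  rw [Finset.mul_sum]
  apply Finset.sum_congr rfl
  intro q _
  have h1 : ∑ s, ∑ a, ∑ b, (gg x)⁻¹ a b * -∑ s_1, ∑ m,
      Rm gg a (p s) (Function.update p s b s_1) m x *
        (c * T (Function.update (Function.update p s b) s_1 m)) =
      c * ∑ s, ∑ a, ∑ b, (gg x)⁻¹ a b * -∑ s_1, ∑ m,
      Rm gg a (p s) (Function.update p s b s_1) m x *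
        T (Function.update (Function.update p s b) s_1 m) := by
    simp only [Finset.mul_sum, mul_neg, Finset.sum_neg_distrib]
    congr 1
    refine Finset.sum_congr rfl fun s _ => Finset.sum_congr rfl fun a _ =>
      Finset.sum_congr rfl fun b _ => Finset.sum_congr rfl fun s' _ =>
      Finset.sum_congr rfl fun m _ => ?_
    ring
  rw [h1]
  ring

/-- `L_3` holds near the origin. -/
theorem exists_ball : ∃ r > 0, Metric.ball (0 : Fin 4 → ℝ) r ⊆ U0 ∧
    CondL gg (Metric.ball 0 r) 3 := by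
  let W : Set ((Fin 4 → ℝ) × ((Fin 3 → Fin 4) → ℝ)) := (U0 ×ˢ Set.univ) ∩ QQ ⁻¹' Set.Ioi 0
  have hW : IsOpen W := QQ_cont.isOpen_inter_preimage (U0_open.prod isOpen_univ) isOpen_Ioi
  have hsub : ({0} : Set (Fin 4 → ℝ)) ×ˢ Metric.sphere (0 : (Fin 3 → Fin 4) → ℝ) 1 ⊆ W := by
    rintro ⟨x, T⟩ ⟨hx, hT⟩
    have hx' : x = 0 := hx
    subst hx'
    refine ⟨⟨zero_mem, trivial⟩, ?_⟩
    change 0 < ip gg 0 (RicL gg 0 T) T
    rw [Q_zero]
    refine lt_of_lt_of_le ?_ (Q_pos T)
    have hne : T ≠ 0 := by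
      rintro rfl
      have : ‖(0 : (Fin 3 → Fin 4) → ℝ)‖ = 1 := by
        rw [← dist_zero_right]
        exact hT
      rw [norm_zero] at this
      exact zero_ne_one this
    obtain ⟨p, hp⟩ := Function.ne_iff.1 hne
    have : 0 < ∑ p, T p ^ 2 :=
      Finset.sum_pos' (fun p _ => sq_nonneg _) ⟨p, Finset.mem_univ _, by
        have : T p ≠ 0 := hp
        positivity⟩
    linarith
  obtain ⟨u, v, hu, hv, h0u, hSv, huv⟩ := generalized_tube_lemma isCompact_singleton
    (isCompact_sphere _ _) hW hsub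
  obtain ⟨r, hr, hball⟩ := Metric.isOpen_iff.1 (hu.inter U0_open) 0
    ⟨h0u rfl, zero_mem⟩
  refine ⟨r, hr, fun x hx => (hball hx).2, ?_⟩
  intro x hx T _
  by_cases hT : T = 0
  · subst hT
    have := QQ_smul x 0 0
    rw [zero_smul] at this
    change 0 ≤ QQ (x, 0)
    rw [this]
    simp
  · have hn : 0 < ‖T‖ := norm_pos_iff.2 hT
    have h1 : (‖T‖⁻¹ • T) ∈ Metric.sphere (0 : (Fin 3 → Fin 4) → ℝ) 1 := by
      rw [mem_sphere_zero_iff_norm, norm_smul, norm_inv, norm_norm, inv_mul_cancel₀ hn.ne']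
    have h2 : (x, ‖T‖⁻¹ • T) ∈ W := huv ⟨(hball hx).1, hSv h1⟩
    have h3 : 0 < QQ (x, ‖T‖⁻¹ • T) := h2.2
    have h4 := QQ_smul x ‖T‖ (‖T‖⁻¹ • T)
    rw [smul_smul, mul_inv_cancel₀ hn.ne', one_smul] at h4
    change 0 ≤ QQ (x, T)
    rw [h4]
    positivity

/-- The tensor `x₁² + x₂² - x₃² - x₄²`. -/
def SS (p : Fin 2 → Fin 4) : ℝ :=
  if p 0 = p 1 then (if (p 0).val < 2 then 1 else -1) else 0

theorem SS_neg : ip gg 0 (RicL gg 0 SS) SS < 0 := by
  rw [Q_zero]
  have hsum : ∀ F : (Fin 2 → Fin 4) → ℝ, ∑ p, F p = ∑ i, ∑ j, F ![i, j] := by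
    intro F
    let e : (Fin 4 × Fin 4) ≃ (Fin 2 → Fin 4) :=
      { toFun := fun q => ![q.1, q.2]
        invFun := fun p => (p 0, p 1)
        left_inv := fun q => rfl
        right_inv := fun p => by ext i; fin_cases i <;> rfl }
    rw [← e.sum_comp, Fintype.sum_prod_type]
    rfl
  have hLL : ∀ a b i j : Fin 4, LL a b SS ![i, j] =
      ((if i = a then SS ![b, j] else 0) - (if i = b then SS ![a, j] else 0)) +
      ((if j = a then SS ![i, b] else 0) - (if j = b then SS ![i, a] else 0)) := by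
    intro a b i j
    have h0 : ∀ c, Function.update ![i, j] 0 c = ![c, j] := by
      intro c; ext x; fin_cases x <;> simp [Function.update]
    have h1 : ∀ c, Function.update ![i, j] 1 c = ![i, c] := by
      intro c; ext x; fin_cases x <;> simp [Function.update]
    unfold LL
    rw [Fin.sum_univ_two, h0, h0, h1, h1]
    rfl
  simp only [hsum, hLL]
  have hS : ∀ i j : Fin 4, SS ![i, j] = if i = j then (if i.val < 2 then 1 else -1) else 0 := by
    intro i j
    rfl
  simp only [hS, Fin.sum_univ_four, Kc]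
  norm_num [Fin.ext_iff]

/-- **Condition `L_3` does not imply condition `L_2`.** There is a smooth Riemannian metric on a
ball around the origin of `ℝ⁴` which satisfies `(L_3)` but not `(L_2)`. -/
theorem result : ∃ (r : ℝ) (g : (Fin 4 → ℝ) → Matrix (Fin 4) (Fin 4) ℝ), 0 < r ∧
    (∀ i j, ContDiffOn ℝ ∞ (fun x => g x i j) (Metric.ball 0 r)) ∧
    (∀ x ∈ Metric.ball (0 : Fin 4 → ℝ) r, (g x).PosDef) ∧
    CondL g (Metric.ball 0 r) 3 ∧ ¬ CondL g (Metric.ball 0 r) 2 := by
  obtain ⟨r, hr, hU, hL⟩ := exists_ball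
  refine ⟨r, gg, hr, fun i j => (gg_contDiff i j).contDiffOn, fun x hx => ?_, hL, fun h => ?_⟩
  · unfold gg
    exact Matrix.PosDef.diagonal (fun i => hU hx i)
  · have h1 := h 0 (Metric.mem_ball_self hr) SS (by
      intro σ p
      have hσ : (p (σ 0) = p (σ 1) ↔ p 0 = p 1) ∧ (p 0 = p 1 → p (σ 0) = p 0) := by
        have key : ∀ x : Fin 2, x = 0 ∨ x = 1 := by decide
        rcases key (σ 0) with h0 | h0 <;> rcases key (σ 1) with h1 | h1
        · exact absurd (σ.injective (h0.trans h1.symm)) (by decide)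
        · rw [h0, h1]; exact ⟨Iff.rfl, fun _ => rfl⟩
        · rw [h0, h1]; exact ⟨eq_comm, fun h => h.symm⟩
        · exact absurd (σ.injective (h0.trans h1.symm)) (by decide)
      unfold SS
      simp only [Function.comp_apply]
      by_cases hp : p 0 = p 1
      · rw [if_pos hp, if_pos (hσ.1.2 hp)]
        simp only [hσ.2 hp]
      · rw [if_neg hp, if_neg (fun h => hp (hσ.1.1 h))])
    exact absurd h1 (not_le.2 SS_neg)

end Geo
end Pool.Agent.Results.MP_9e0eae_gt.LThreeNotLTwo
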